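import Mathlib
import Pool.Agent.H5.Suit

set_option autoImplicit false

namespace Pool.Agent.Results.MP_eb7acf_gt.No

open Set Filter Topology

/-- suitable set of a topological group (written additively) -/
def Suitable {G : Type} [AddGroup G] [TopologicalSpace G] (S : Set G) : Prop :=
  DiscreteTopology S ∧ IsClosed (S ∪ {0}) ∧ Dense (AddSubgroup.closure S : Set G)

/-- every point has a neighbourhood base indexed antitonically by `ω^ω` (pointwise order) -/
def OmegaBase (X : Type) [TopologicalSpace X] : Prop :=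
  ∀ x : X, ∃ U : (ℕ → ℕ) → Set X, (∀ α, U α ∈ 𝓝 x) ∧ (∀ V ∈ 𝓝 x, ∃ α, U α ⊆ V) ∧
    ∀ α β : ℕ → ℕ, (∀ n, α n ≤ β n) → U β ⊆ U α

/-- GO-space: for some linear order all open rays are open and the convex open sets form a base -/
def IsGO (X : Type) [TopologicalSpace X] : Prop :=
  ∃ _ : LinearOrder X, (∀ a : X, IsOpen (Ioi a) ∧ IsOpen (Iio a)) ∧
    ∀ (x : X) (V : Set X), IsOpen V → x ∈ V → ∃ C, IsOpen C ∧ OrdConnected C ∧ x ∈ C ∧ C ⊆ V

/-- linearly orderable space -/
def IsLO (X : Type) [TopologicalSpace X] : Prop := ∃ _ : LinearOrder X, OrderTopology X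

theorem result : ∃ (G : Type) (_ : AddCommGroup G) (_ : TopologicalSpace G),
    IsTopologicalAddGroup G ∧ T35Space G ∧ IsGO G ∧ IsLO G ∧ OmegaBase G ∧
      ∀ S : Set G, ¬ Suitable S := by
  obtain ⟨G, _, _, _, h1, h2, h3, h4⟩ := Pool.Agent.H5.Suit.final
  refine ⟨G, inferInstance, inferInstance, h1, inferInstance,
    ⟨inferInstance, fun a => ⟨isOpen_Ioi, isOpen_Iio⟩, fun x V hV hx =>
      ⟨ordConnectedComponent V x, isOpen_iff_mem_nhds.2 fun y hy => ?_, inferInstance,
        self_mem_ordConnectedComponent.2 hx, ordConnectedComponent_subset⟩⟩,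
    ⟨inferInstance, h2⟩, fun x => ?_, fun S h => h4 S h.1 h.2.1 h.2.2⟩
  · rw [ordConnectedComponent_eq (mem_ordConnectedComponent.1 hy)]
    exact ordConnectedComponent_mem_nhds.2 (hV.mem_nhds (ordConnectedComponent_subset hy))
  · obtain ⟨U, a, b⟩ := h3 x
    exact ⟨U, fun α => a.mem_of_mem trivial, fun V hV => (a.mem_iff.1 hV).imp fun _ h => h.2,
      fun α β h => b h⟩

end Pool.Agent.Results.MP_eb7acf_gt.No
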